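import Pool.Agent.Q70.MbD

/-!
# Graph matchbox manifolds at every finite level

The definitions of the transversal space `XS n`, of the traces `Orb T` of the leaves and of the
level are in `Pool.Agent.Q70.MbA`; the decorated lines `TR x` are in `Pool.Agent.Q70.MbB` and the
sequences `sq k` in `Pool.Agent.Q70.MbC`.
-/

set_option autoImplicit false

namespace Pool.Agent.Results.MP_598c06_an.EveryLevel

open Set Q70.Mb

/-- For every `k`, the closure of the leaf through the explicit decorated line `TR (sq k)` of the
Cayley graph of the free group on two generators is at level exactly `k`. -/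
theorem result (k : ℕ) :
    IsLevel k (closure (Orb (TR (sq k)))) ∧
      ∀ j : ℕ, IsLevel j (closure (Orb (TR (sq k)))) → j = k :=
  ⟨level_sq k, fun j hj => level_unique j k _ hj (level_sq k)⟩

end Pool.Agent.Results.MP_598c06_an.EveryLevel
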